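import Pool.Agent.Helper89.MS.Sheet

/-! MS package ASM (MP_8815b4_co, helper42 + helper89): STEP from the packages. -/

open Finset

namespace MS

theorem asm : ASMStm := by
  intro hB0 hB1 hB2 hB3 hB4 hB5 hB10 t m v ht htm hyp F hF
  obtain ⟨F', hG, hle⟩ := hB0 t m v hyp.nn F hF
  by_cases hc : ∀ S ∈ NN m F', 2 * #S ≠ m + t
  · obtain ⟨F'', hT, hw⟩ := hB4 t m v F' ht htm hyp hG hc
    exact Or.inl ⟨F'', hT, hle.trans hw⟩
  · push Not at hc
    obtain ⟨S, hS, hS2⟩ := hc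
    obtain ⟨r, c, hm, hr, ht2, hcr, hSc, hrc⟩ := hB3 t m v F' ht htm hyp hG S hS hS2
    have h1 := hB1 t m v F' ht htm hG
    have hpos : 0 < v (c + 1) := by rw [← hSc]; exact (h1.1 S hS).1
    have hN : ∀ S' ∈ NN m F', #S' = c + 1 ∨ (v (#S' - 1) = 0 ∧ 0 < v #S') := by
      intro S' hS'
      by_cases h2 : 2 * #S' = m + t
      · left; omega
      · right
        exact ⟨hB2 t m v F' ht htm hyp hG S' hS' h2, (h1.1 S' hS').1⟩
    have hsym : Sym m F' :=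
      hB10 t m r c v F' ht2 hyp hG hm hr hcr hpos hrc hN ⟨S, hS, hSc⟩
    exact Or.inr ⟨r, hm, hle.trans (hB5 t m r v F' ht hyp.nn hG hsym hm)⟩

end MS
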